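import Pool.Agent.H6.TC3
import Pool.Agent.H6.TC5
import Pool.Agent.H6.TC6

set_option autoImplicit false

namespace Pool.Agent.Results.MP_87e2cd_co.TwoCyclesEMT

open Pool.Agent.H6.GS

/-- For `m ≥ n ≥ 3`, the disjoint union `C_m ∪ C_n` is edge-magic total iff `(m, n) ≠ (3, 3)`.
In each cycle, edge `i` joins the vertices `i` and `i + 1` (modulo the cycle length);
`v` labels the vertices and `e` labels the edges. -/
theorem result (m n : ℕ) (hn : 3 ≤ n) (hmn : n ≤ m) :
    (∃ v e : Fin m ⊕ Fin n → ℕ, ∃ k : ℕ,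
      Set.BijOn (Sum.elim v e) Set.univ (Set.Icc 1 ((m + n) + (m + n))) ∧
      (∀ i j : Fin m, j.val = (i.val + 1) % m →
        v (Sum.inl i) + e (Sum.inl i) + v (Sum.inl j) = k) ∧
      (∀ i j : Fin n, j.val = (i.val + 1) % n →
        v (Sum.inr i) + e (Sum.inr i) + v (Sum.inr j) = k)) ↔ ¬ (m = 3 ∧ n = 3) := by
  constructor
  · rintro ⟨v, e, k, h1, h2, h3⟩ ⟨rfl, rfl⟩
    exact no33 ⟨v, e, k, Set.injOn_univ.1 h1.injOn, fun x => h1.mapsTo (Set.mem_univ x), h2, h3⟩
  · intro h
    have G : Good2 m n := by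
      by_cases p : (n + m) % 2 = 0
      · by_cases q : n + m < 60
        · exact (small n m (by omega)).symm
        · exact (big n m hn hmn (by omega) p).symm
      · by_cases q : n + m = 7
        · exact (small n m (by omega)).symm
        · exact of_sem ((Pool.Agent.H6.SEM.main m n (by omega) hn (by omega)).2
            (Nat.odd_iff.2 (by omega)))
    obtain ⟨v, e, k, h1, h2, h3, h4⟩ := G
    refine ⟨v, e, k, ⟨fun x _ => ?_, h1.injOn, ?_⟩, h3, h4⟩
    · have := h2 x
      constructor <;> omega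
    · have q : Finset.univ.image (Sum.elim v e) = Finset.Icc 1 ((m + n) + (m + n)) := by
        refine Finset.eq_of_subset_of_card_le (fun x hx => ?_) ?_
        · obtain ⟨y, -, rfl⟩ := Finset.mem_image.1 hx
          have := h2 y
          exact Finset.mem_Icc.2 (by omega)
        · rw [Finset.card_image_of_injective _ h1]; simp
      intro x hx
      have : x ∈ Finset.univ.image (Sum.elim v e) := by
        rw [q]; exact Finset.mem_Icc.2 hx
      obtain ⟨y, -, rfl⟩ := Finset.mem_image.1 this
      exact ⟨y, Set.mem_univ y, rfl⟩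

end Pool.Agent.Results.MP_87e2cd_co.TwoCyclesEMT
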